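import Mathlib
import Pool.Agent.H19.PropDefs
import Pool.Agent.H19.PropBip

set_option autoImplicit false

namespace Pool.Agent.Results.MP_f66848_co.Half

open Pool.Agent.H19.PropCh Pool.Agent.H19.PropBip Filter Topology

theorem result (n : ℕ) (hn : 1 ≤ n) :
    Tendsto (fun m : ℕ => (chiPC (completeBipartiteGraph (Fin n) (Fin m)) : ℝ) / m) atTop
      (𝓝 (1 / 2)) := by
  have key : ∀ m : ℕ, m < 2 * chiPC (completeBipartiteGraph (Fin n) (Fin m)) ∧
      2 * chiPC (completeBipartiteGraph (Fin n) (Fin m)) ≤ m + 3 * n ^ 3 + 3 * n + 1 := by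
    intro m
    have hmem : (m + 3 * n ^ 3 + 3 * n + 1) / 2 ∈
        {k | 1 ≤ k ∧ PropChoosable (completeBipartiteGraph (Fin n) (Fin m)) k} :=
      ⟨by omega, upper hn (by omega)⟩
    have h1 := Nat.sInf_mem ⟨_, hmem⟩
    have h2 := Nat.sInf_le hmem
    refine ⟨lower hn h1.1 h1.2, ?_⟩
    unfold chiPC; omega
  have lim : Tendsto (fun m : ℕ => (1 / 2 : ℝ) + ((3 * n ^ 3 + 3 * n + 1 : ℝ) / 2) / m) atTop
      (𝓝 (1 / 2)) := by
    simpa using (tendsto_const_div_atTop_nhds_zero_nat ((3 * n ^ 3 + 3 * n + 1 : ℝ) / 2)).const_add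
      (1 / 2 : ℝ)
  refine tendsto_of_tendsto_of_tendsto_of_le_of_le' tendsto_const_nhds lim ?_ ?_
  · filter_upwards [eventually_gt_atTop 0] with m hm
    have hm' : (0 : ℝ) < m := by exact_mod_cast hm
    rw [le_div_iff₀ hm']
    have : (m : ℝ) < 2 * chiPC (completeBipartiteGraph (Fin n) (Fin m)) := by
      exact_mod_cast (key m).1
    linarith
  · filter_upwards [eventually_gt_atTop 0] with m hm
    have hm' : (0 : ℝ) < m := by exact_mod_cast hm
    rw [div_le_iff₀ hm', add_mul, div_mul_cancel₀ _ hm'.ne']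
    have : (2 : ℝ) * chiPC (completeBipartiteGraph (Fin n) (Fin m)) ≤
        m + 3 * n ^ 3 + 3 * n + 1 := by exact_mod_cast (key m).2
    linarith

end Pool.Agent.Results.MP_f66848_co.Half
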